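import Pool.Agent.MP_d439b8_lc.H96.Final

open Pool.Agent.MP_d439b8_lc.H96 in
/-- There is a polynomial `p` such that every promise problem in QMA reduces, by a polynomial time
many-one reduction, to deciding whether the entangled value of a one round two player game with
logarithmic classical questions and answers of `11` qubits is at least `c` or at most `s`, where
`c - s ≥ 1 / p(n)`. -/
theorem Pool.Agent.Results.MP_d439b8_lc.TwoPlayers.result :
    ∃ p : Polynomial ℕ, ∀ Y N : Set (List Bool), QMA Y N →
      ∃ f : List Bool → List Test × ℚ × ℚ, N68a2faeb.IsPolyTime f ∧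
        (∀ x ∈ Y, f x ∈ GameYes p) ∧ ∀ x ∈ N, f x ∈ GameNo p := by
  refine ⟨gapPoly, fun Y N ⟨V, hV, hY, hN⟩ => ⟨fun x => (V x).inst,
    (pt_inst.comp (Pool.Agent.Shared.H56.PT.of_isPolyTime hV)).isPolyTime, fun x hx => ?_,
    fun x hx => Verifier.inst_no (hN x hx)⟩⟩
  obtain ⟨ψ, h, h'⟩ := hY x hx
  exact Verifier.inst_yes h h'
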